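import Pool.Agent.N394.FPC.E
import Pool.Agent.Y910.F.F6

/-!
# MP_d88658_nt: in each class of the 2-descent, over each number field and for all quadratic twists
together, only boundedly many integral points violate the uniform height bound

Let `f` be an integral polynomial of degree `d` without repeated roots whose coefficients have
absolute value at most `H`, let `g` be a factor of `f` of degree at least three (for instance
`g = f`, if `d ≥ 3`) and let `K` be a number field. For an integer `x` we look at the class of
`x - T` in the algebra `K[T] / (g)`, modulo squares and modulo `K*`.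

**Theorem.** For every `d` there is `N` such that for all `K`, `H`, `f`, `g` as above and every class
(represented by the unit `δ` of `K[T] / (g)`) there are at most `N * 2 ^ (d [K : ℚ])` integers `x` in
the class which do not satisfy `|x| ≤ 2 ^ 14 * (2 ^ d (d + 1) H) ^ 10`, i.e.
`h(x) ≤ 10 h(f) + C₂(d)`.

So in each class of the 2-descent over `K` only a number of integral points bounded in terms of `d`
and `[K : ℚ]` can violate the bound of the problem with `C₁ = 10` and an explicit `C₂(d)`, and this
holds for all the quadratic twists `b y ^ 2 = f(x)` together. If `d` is odd, `g = f` and `b` is the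
leading coefficient of `f`, then two integral points `P`, `P'` of `y ^ 2 = f(x)` are in the same class
if and only if `P - P'` is divisible by two in the group `J(K)` of points over `K` of the Jacobian.

The starting theorem `DivisibleOverNumberFields` of this problem treats one class (the trivial
class), bounding all the points in terms of `d`, `H` and `K` (with constants depending on the field
`K` and not only on its degree).

Proof. (1) Each class over `K` consists of at most `2 ^ (d [K : ℚ])` classes over `ℚ`: the signs of
the square roots at the embeddings of `K` and the roots of `g` are the only invariants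
(`Pool.Agent.N394.FPC.classK`). (2) Gap principle (`Pool.Agent.N394.FPC.gapS`): among more than `2 ^ d`
integers of one class over `ℚ` with `|x| > 2 ^ 14 H ^ 10` there are two with `|x| ^ 2 ≤ |x'|`. Indeed
for two integers in the same class with the same signs of the square roots at the roots `θ i` of `g`,
`R(θ i) ^ 2 = c (x - θ i) (x' - θ i)`, the expression
`R(θ 1) (θ 2 - θ 3) + R(θ 2) (θ 3 - θ 1) + R(θ 3) (θ 1 - θ 2)` vanishes, because its square times
`a ^ 4 / c` is an algebraic integer with small conjugates; then `x = x'`. (3) Let `x₀` be the smallest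
integer of the class. With the representative `a (x₀ - T)` of the class, of size at most `x₀ ^ 2`, the
integers of the class are the abscissas of integral points of one irreducible plane curve with
coefficients polynomially bounded in `x₀` for which the residue field of each place at infinity has
degree at least three, and the number of integral points of such a curve with `|x|` larger than a
fixed power of `|x₀|` is bounded (`Pool.Agent.N394.FPC.frameT`, by the library theorem
`Pool.Agent.Y910.E.monic_few`). The remaining integers of the class have `|x₀| ≤ |x| ≤ |x₀| ^ C` and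
are counted by the gap principle.

Part (3) uses parts of the library project `Pool.Agent.Y910.F` of helper910 with contributions by
helpers 79, 396, 525, 774, 876, 907. Parts (1), (2) and the final argument are new.
-/

open Polynomial

set_option autoImplicit false

namespace Pool.Agent.Results.MP_d88658_nt.FewPerClass

/-- For every `d` there is `N` such that for every number field `K`, every integral polynomial `f`
of degree `d` without repeated roots with coefficients of absolute value at most `H`, every factor
`g` of `f` of degree at least three and every unit `δ` of `K[T] / (g)` there are at most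
`N * 2 ^ (d * [K : ℚ])` integers `x` with `|x| > 2 ^ 14 * (2 ^ d * ((d + 1) * H)) ^ 10` for which
`b (x - T) δ` is a square in `K[T] / (g)` for some nonzero `b` in `K`. -/
theorem result (d : ℕ) : ∃ N : ℕ, ∀ (K : Type) [Field K] [NumberField K] (H : ℕ) (f : ℤ[X]),
    f.natDegree = d → (f.map (Int.castRingHom ℚ)).Separable → (∀ i, |f.coeff i| ≤ H) →
    ∀ g : ℤ[X], g ∣ f → 3 ≤ g.natDegree →
    ∀ δ : AdjoinRoot (g.map (Int.castRingHom K)), IsUnit δ →
      {x : ℤ | 2 ^ 14 * (2 ^ d * ((d + 1) * (H : ℤ))) ^ 10 < |x| ∧ ∃ b : K, b ≠ 0 ∧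
        IsSquare (AdjoinRoot.mk (g.map (Int.castRingHom K)) (C b * (C (x : K) - X)) * δ)}.encard
        ≤ (N * 2 ^ (d * Module.finrank ℚ K) : ℕ) := by
  classical
  have hN : ∀ e : ℕ, ∃ N : ℕ, 3 ≤ e → ∀ (K : Type) [Field K] [NumberField K] (H : ℕ)
      (g : ℤ[X]), 1 ≤ H → g.natDegree = e →
      (g.map (Int.castRingHom ℚ)).Separable → (∀ i, |g.coeff i| ≤ H) → ∀ s : Finset ℤ,
      (∀ x ∈ s, 2 ^ 14 * (H : ℤ) ^ 10 < |x|) →
      (∀ x ∈ s, ∀ y ∈ s, ∃ b : K, b ≠ 0 ∧ ∃ B : K[X], ∀ φ : K →ₐ[ℚ] ℂ,
        ∀ θ : ℂ, aeval θ g = 0 → eval₂ (φ : K →+* ℂ) θ B ^ 2 = φ b * (x - θ) * (y - θ)) →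
      s.card ≤ N * 2 ^ (e * Module.finrank ℚ K) := by
    intro e
    by_cases he : 3 ≤ e
    · obtain ⟨N, hN⟩ := Pool.Agent.N394.FPC.classK e he
      exact ⟨N, fun _ => hN⟩
    · exact ⟨0, fun h => absurd h he⟩
  choose N hN using hN
  refine ⟨∑ e ∈ Finset.range (d + 1), N e, ?_⟩
  intro K _ _ H f hd hsep hcoef g hgf hg3 δ hδ
  have hf0 : f ≠ 0 := by
    rintro rfl
    rw [Polynomial.map_zero] at hsep
    exact not_separable_zero hsep
  have hH1 : 1 ≤ H := by
    have h1 := (Int.one_le_abs (leadingCoeff_ne_zero.2 hf0)).trans (hcoef f.natDegree)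
    exact_mod_cast h1
  have hgd : g.natDegree ≤ d := by
    rw [← hd]; exact natDegree_le_of_dvd hgf hf0
  have hgs : (g.map (Int.castRingHom ℚ)).Separable :=
    hsep.of_dvd (Polynomial.map_dvd _ hgf)
  obtain ⟨H', hH'⟩ : ∃ H', H' = 2 ^ d * ((d + 1) * H) := ⟨_, rfl⟩
  have hgc : ∀ i, |g.coeff i| ≤ (H' : ℤ) := fun i => by
    rw [hH']; exact Pool.Agent.Y910.F.factor_bound d H f g hd hf0 hcoef hgf i
  have hH'1 : 1 ≤ H' := by
    rw [hH']
    exact Nat.mul_pos (by positivity) (Nat.mul_pos (by omega) hH1)
  by_contra hcon
  push Not at hcon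
  obtain ⟨t, ht, htc⟩ := Set.exists_subset_encard_eq (Order.add_one_le_of_lt hcon)
  have htf : t.Finite := by
    apply Set.finite_of_encard_eq_coe (k := (∑ e ∈ Finset.range (d + 1), N e) *
      2 ^ (d * Module.finrank ℚ K) + 1)
    rw [htc]
    push_cast
    rfl
  have hmem : g.natDegree ∈ Finset.range (d + 1) := Finset.mem_range.2 (by omega)
  have h1 := hN g.natDegree hg3 K H' g hH'1 rfl hgs hgc htf.toFinset (by
    intro x hx
    rw [Set.Finite.mem_toFinset] at hx
    have := (ht hx).1
    rw [hH']
    push_cast
    exact this) (by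
    intro x hx y hy
    rw [Set.Finite.mem_toFinset] at hx hy
    obtain ⟨-, b, hb, r, hr⟩ := ht hx
    obtain ⟨-, b', hb', r', hr'⟩ := ht hy
    obtain ⟨δ', hδ'⟩ := hδ.exists_right_inv
    obtain ⟨B, hB⟩ := AdjoinRoot.mk_surjective (r * r' * δ')
    refine ⟨b * b', mul_ne_zero hb hb', B, ?_⟩
    have h2 : AdjoinRoot.mk (g.map (Int.castRingHom K)) (B ^ 2) =
        AdjoinRoot.mk (g.map (Int.castRingHom K)) (C (b * b') * (C (x : K) - X) *
          (C (y : K) - X)) := by
      rw [map_pow, hB]
      have h3 : (r * r' * δ') ^ 2 = (r * r) * (r' * r') * δ' ^ 2 := by ring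
      rw [h3, ← hr, ← hr', C_mul]
      simp only [map_mul]
      linear_combination (AdjoinRoot.mk (g.map (Int.castRingHom K)) (C b) *
        AdjoinRoot.mk (g.map (Int.castRingHom K)) (C b') *
        AdjoinRoot.mk (g.map (Int.castRingHom K)) (C (x : K) - X) *
        AdjoinRoot.mk (g.map (Int.castRingHom K)) (C (y : K) - X)) * (δ * δ' + 1) * hδ'
    rw [AdjoinRoot.mk_eq_mk] at h2
    obtain ⟨Q, hQ⟩ := h2
    intro φ θ hθ
    have h3 := congrArg (eval₂ (φ : K →+* ℂ) θ) hQ
    rw [eval₂_mul, eval₂_map] at h3
    have h4 : eval₂ ((φ : K →+* ℂ).comp (Int.castRingHom K)) θ g = 0 := by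
      rw [← hθ, aeval_def]
      congr 1
      exact RingHom.ext_int _ _
    rw [h4, zero_mul, eval₂_sub, sub_eq_zero, eval₂_pow] at h3
    rw [h3, eval₂_mul, eval₂_mul, eval₂_sub, eval₂_sub, eval₂_C, eval₂_C, eval₂_C, eval₂_X]
    simp)
  have h2 : htf.toFinset.card = (∑ e ∈ Finset.range (d + 1), N e) *
      2 ^ (d * Module.finrank ℚ K) + 1 := by
    have h3 : (htf.toFinset.card : ℕ∞) = t.encard := htf.encard_eq_coe_toFinset_card.symm
    rw [htc] at h3
    exact_mod_cast h3
  have h3 : N g.natDegree ≤ ∑ e ∈ Finset.range (d + 1), N e :=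
    Finset.single_le_sum (f := N) (fun _ _ => Nat.zero_le _) hmem
  have h4 : N g.natDegree * 2 ^ (g.natDegree * Module.finrank ℚ K) ≤
      (∑ e ∈ Finset.range (d + 1), N e) * 2 ^ (d * Module.finrank ℚ K) :=
    Nat.mul_le_mul h3 (Nat.pow_le_pow_right (by norm_num) (Nat.mul_le_mul_right _ hgd))
  omega

end Pool.Agent.Results.MP_d88658_nt.FewPerClass
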