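import Mathlib
import Pool.Agent.N741.UN.Gp
import Pool.Agent.N741.HB.Thm2

/-!
# Integral points of superelliptic curves: generated abscissa, ordinate a power

We consider all polynomials `f` of degree at most `d` with at least two terms (for instance all `f` of
degree `d ≥ 2` without repeated roots) whose coefficients have absolute value at most `X ^ E`, all
exponents `r ≥ R` and all integers `s` with `|s| ≤ X ^ E` simultaneously, and the integral points `(x, z)`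
of the curves

  `f(x) = s z ^ r`,

in particular the integral points `(x, y)` of the curves `y ^ 2 = f(x)` for which `y = s z ^ r`, since then
`f(x) = s ^ 2 z ^ (2 r)`. We assume that `x` is, up to sign, a product of powers of `N` unspecified
integers of size at most `X`; there is no condition on `z`. The rational scalings `x ↦ ρ x`,
`f(x) ↦ κ f(ρ⁻¹ x)` act on the pairs (polynomial, point).

Theorem. For all `d`, `N`, `E` and `ε > 0` there are `K`, `R` and `δ > 0` such that for all `X ≥ 2` all but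
at most `X ^ ε` of these pairs, up to scaling, satisfy `|x| ≤ X ^ K` or `|x| > exp (X ^ δ)`. The bound
`|x| ≤ X ^ K` is the bound `h(x) ≤ C h(f) + C'` of the conjecture of Hall, Lang and Vojta.

The integers `x` and `z` may be exponentially large, and so may be the conductors.

Method: by the theorem on sums of products of powers (project HK, determinant method in an ultraproduct,
`Pool/Agent/N741/HB/Thm4.lean`) the arguments `x` fall into few classes such that the quotients of the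
arguments in one class are small. In one class the value `f(x)` is a value of a linear polynomial at a
small point. By the theorem on power values of polynomials (project HB, `Thm2.lean`) there are few
`z ^ r`. If two points of a class have the same `z ^ r` then they are equivalent, because a polynomial
with small coefficients does not vanish at a large integer.

Parts of the proof by helpers 20, 26, 27, 42, 54, 72, 130, 152, 264, 273, 340, 368, 426, 438, 441, 459,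
519, 572, 603, 618, 713, 717, 776, 868, 887, 966, 999 (see Pool/Agent/N741/HB/Thm.lean, Thm2.lean,
Thm3.lean, Thm4.lean).
-/

set_option autoImplicit false

namespace Pool.Agent.Results.MP_d88658_nt.GeneratedPowerPoints

/-- the polynomial `∑ c i * x ^ i`, `|c i| ≤ X ^ E`, has at least two terms, the integer `x`,
`X ^ K < |x| ≤ exp (X ^ δ)`, is up to sign a product of powers of `N` integers between `1` and `X`, and
its value `w = ∑ c i * x ^ i` is of the form `s * z ^ r`, `|s| ≤ X ^ E`, `r ≥ R` -/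
structure LargePoint (d N E K R : ℕ) (δ : ℝ) (X : ℕ) (c : Fin (d + 1) → ℤ) (x w : ℤ) : Prop where
  coeff : ∀ i, |c i| ≤ (X : ℤ) ^ E
  two : ∃ i j : Fin (d + 1), i < j ∧ c i ≠ 0 ∧ c j ≠ 0
  val : w = ∑ i, c i * x ^ (i : ℕ)
  large : (X : ℤ) ^ K < |x|
  bound : ((|x| : ℤ) : ℝ) ≤ Real.exp ((X : ℝ) ^ δ)
  gen : ∃ (η : ℤ) (b e : Fin N → ℕ), |η| = 1 ∧ (∀ j, 1 ≤ b j ∧ b j ≤ X) ∧
    x = η * ∏ j, (b j : ℤ) ^ e j
  pow : ∃ (s z : ℤ) (r : ℕ), |s| ≤ (X : ℤ) ^ E ∧ R ≤ r ∧ w = s * z ^ r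

/-- the scaling `x ↦ ρ * x`, `f(x) ↦ κ * f(ρ⁻¹ * x)` maps `c'`, `x'`, `w'` to `c`, `x`, `w` -/
def Scales {d : ℕ} (ρ κ : ℚ) (c : Fin (d + 1) → ℤ) (x w : ℤ) (c' : Fin (d + 1) → ℤ) (x' w' : ℤ) :
    Prop :=
  (x : ℚ) = ρ * x' ∧ (w : ℚ) = κ * w' ∧ ∀ i, (c i : ℚ) * ρ ^ (i : ℕ) = κ * c' i

open Pool.Agent.N741.UN Pool.Agent.N741.HB Pool.Agent.Y902.GN

/-- facts on large points -/
theorem LargePoint.pt {d N E K R : ℕ} {δ δ' : ℝ} {X Z : ℕ} {c : Fin (d + 1) → ℤ} {x w : ℤ}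
    (h : LargePoint d N E K R δ X c x w) (hX : 2 ≤ X) (hδ : 0 < δ) (hK : E + 1 ≤ K)
    (hZ : Z = X ^ (E + 1)) (hbig : ((4 * d + 2 * E + 4 : ℕ) : ℝ) * (X : ℝ) ^ δ ≤ (Z : ℝ) ^ δ') :
    ∃ I : Finset (Fin (d + 1)), (∃ i ∈ I, ∃ j ∈ I, i < j) ∧ Pt d N R δ' Z I (c, x, w) := by
  classical
  have hX1 : (1 : ℤ) ≤ (X : ℤ) := by exact_mod_cast (by omega : 1 ≤ X)
  have hX2 : (2 : ℤ) ≤ (X : ℤ) := by exact_mod_cast hX
  have hXR : (1 : ℝ) ≤ (X : ℝ) := by exact_mod_cast (by omega : 1 ≤ X)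
  have hV1 : (1 : ℝ) ≤ (X : ℝ) ^ δ := Real.one_le_rpow hXR hδ.le
  obtain ⟨V, hV⟩ : ∃ V : ℝ, V = (X : ℝ) ^ δ := ⟨_, rfl⟩
  have hbnd := h.bound
  rw [← hV] at hV1 hbig hbnd
  have hEK : (X : ℤ) ^ (E + 1) ≤ (X : ℤ) ^ K := pow_le_pow_right₀ hX1 hK
  have h2E : 2 * (X : ℤ) ^ E ≤ (X : ℤ) ^ (E + 1) := by
    rw [pow_succ, mul_comm]
    exact mul_le_mul_of_nonneg_left hX2 (by positivity)
  have hEp : (0 : ℤ) < (X : ℤ) ^ E := by positivity
  have hxl : 2 * (X : ℤ) ^ E < |x| := by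
    have := h.large
    linarith
  have hxne : x ≠ 0 := by
    rintro rfl
    rw [abs_zero] at hxl
    linarith
  obtain ⟨I, hI⟩ : ∃ I : Finset (Fin (d + 1)), I = Finset.univ.filter fun i => c i ≠ 0 := ⟨_, rfl⟩
  have hmem : ∀ i, i ∈ I ↔ c i ≠ 0 := by
    intro i
    rw [hI, Finset.mem_filter]
    exact ⟨fun h => h.2, fun h => ⟨Finset.mem_univ _, h⟩⟩
  have hnv : ∀ J ⊆ I, J.Nonempty → ∑ i ∈ J, c i * x ^ (i : ℕ) ≠ 0 := by
    intro J hJ hJn h0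
    obtain ⟨j, hj⟩ := hJn
    have h1 := digits (d + 1) (fun i => if i ∈ J then c i else 0) x (fun i => by
      split_ifs
      · exact lt_of_le_of_lt (h.coeff i) (by linarith)
      · rw [abs_zero]
        exact abs_pos.2 hxne) (by
      refine Eq.trans ?_ h0
      simp only [ite_mul, zero_mul]
      rw [Finset.sum_ite_mem, Finset.univ_inter]) j
    rw [if_pos hj] at h1
    exact (hmem j).1 (hJ hj) h1
  have hw0 : w ≠ 0 := by
    rw [h.val]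
    have h1 : ∑ i, c i * x ^ (i : ℕ) = ∑ i ∈ I, c i * x ^ (i : ℕ) := by
      refine (Finset.sum_subset (Finset.subset_univ _) fun i _ hi => ?_).symm
      have : c i = 0 := by
        by_contra h'
        exact hi ((hmem i).2 h')
      rw [this, zero_mul]
    rw [h1]
    obtain ⟨i, j, hij, hi, hj⟩ := h.two
    exact hnv I (Finset.Subset.refl _) ⟨i, (hmem i).2 hi⟩
  obtain ⟨s, z, r, hs, hr, hw⟩ := h.pow
  have hs0 : s ≠ 0 := by
    rintro rfl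
    rw [zero_mul] at hw
    exact hw0 hw
  have hz2 : 2 ≤ |z| := by
    by_contra hcon
    have hz1 : z = 0 ∨ z = 1 ∨ z = -1 := by
      have : |z| ≤ 1 := by omega
      rw [abs_le] at this
      omega
    have hw1 : |w| ≤ (X : ℤ) ^ E := by
      rw [hw, abs_mul, abs_pow]
      have h2 : |z| ^ r ≤ 1 := pow_le_one₀ (abs_nonneg _) (by omega)
      calc |s| * |z| ^ r ≤ |s| * 1 := mul_le_mul_of_nonneg_left h2 (abs_nonneg _)
        _ ≤ _ := by rw [mul_one]; exact hs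
    obtain ⟨i, j, hij, hi, hj⟩ := h.two
    have h1 := digits (d + 1) (fun i => if i = 0 then c i - w else c i) x (fun i => by
      split_ifs
      · refine lt_of_le_of_lt (abs_sub _ _) ?_
        have := h.coeff i
        linarith
      · exact lt_of_le_of_lt (h.coeff i) (by linarith)) (by
      rw [Fin.sum_univ_succ]
      have h2 : w = c 0 * x ^ ((0 : Fin (d + 1)) : ℕ) +
          ∑ i : Fin d, c i.succ * x ^ ((i.succ : Fin (d + 1)) : ℕ) := by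
        rw [h.val, Fin.sum_univ_succ]
      have h3 : ∑ i : Fin d, (if i.succ = (0 : Fin (d + 1)) then c i.succ - w else c i.succ) *
          x ^ ((i.succ : Fin (d + 1)) : ℕ) =
          ∑ i : Fin d, c i.succ * x ^ ((i.succ : Fin (d + 1)) : ℕ) :=
        Finset.sum_congr rfl fun i _ => by rw [if_neg (Fin.succ_ne_zero i)]
      rw [h3, if_pos rfl]
      rw [Fin.val_zero, pow_zero, mul_one] at h2 ⊢
      linarith) j
    have hj0 : j ≠ 0 := by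
      rintro rfl
      have := Fin.lt_def.1 hij
      simp at this
    rw [if_neg hj0] at h1
    exact hj h1
  obtain ⟨η, b, e, hη, hb, hx⟩ := h.gen
  have hxb : ∀ i : ℕ, ((|x ^ i| : ℤ) : ℝ) ≤ Real.exp (i * V) := by
    intro i
    rw [abs_pow, Real.exp_nat_mul]
    push_cast
    refine pow_le_pow_left₀ (abs_nonneg _) ?_ _
    exact_mod_cast hbnd
  have hZX : (X : ℤ) ^ E ≤ (Z : ℤ) := by
    rw [hZ]
    push_cast
    exact pow_le_pow_right₀ hX1 (by omega)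
  have hXZ : X ≤ Z := by
    rw [hZ]
    exact Nat.le_self_pow (by omega) _
  have hdV : ((4 * d + 2 * E + 4 : ℕ) : ℝ) * V = 4 * d * V + 2 * E * V + 4 * V := by
    push_cast
    ring
  rw [hdV] at hbig
  have hE0 : (0 : ℝ) ≤ E := Nat.cast_nonneg _
  have hd0 : (0 : ℝ) ≤ d := Nat.cast_nonneg _
  have hEV : 0 ≤ (E : ℝ) * V := mul_nonneg hE0 (by linarith)
  have hdV' : 0 ≤ (d : ℝ) * V := mul_nonneg hd0 (by linarith)
  have hlog2 : (1 : ℝ) / 2 ≤ Real.log 2 := by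
    have := Real.log_two_gt_d9
    linarith
  -- the bound of the exponent
  have hrb : (r : ℝ) ≤ (Z : ℝ) ^ δ' := by
    have h1 : ((|z| : ℤ) : ℝ) ^ r ≤ ((|w| : ℤ) : ℝ) := by
      rw [hw, abs_mul, abs_pow]
      push_cast
      refine le_mul_of_one_le_left (by positivity) ?_
      exact_mod_cast Int.one_le_abs hs0
    have h2 : (2 : ℝ) ^ r ≤ ((|z| : ℤ) : ℝ) ^ r :=
      pow_le_pow_left₀ (by norm_num) (by exact_mod_cast hz2) _
    have hXx : (X : ℝ) ≤ Real.exp V := by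
      refine le_trans ?_ hbnd
      have h3 : (X : ℤ) ≤ |x| := by
        have h4 : (X : ℤ) ^ 1 ≤ (X : ℤ) ^ K := pow_le_pow_right₀ hX1 (by omega)
        rw [pow_one] at h4
        exact h4.trans h.large.le
      exact_mod_cast h3
    have h3 : ((|w| : ℤ) : ℝ) ≤ Real.exp (2 * d * V + E * V + V) := by
      have h4 : |w| ≤ ∑ i : Fin (d + 1), (X : ℤ) ^ E * |x| ^ d := by
        rw [h.val]
        refine (Finset.abs_sum_le_sum_abs _ _).trans (Finset.sum_le_sum fun i _ => ?_)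
        rw [abs_mul, abs_pow]
        exact mul_le_mul (h.coeff i) (pow_le_pow_right₀ (Int.one_le_abs hxne)
          (Nat.lt_succ_iff.1 i.2)) (by positivity) (by positivity)
      rw [Finset.sum_const, Finset.card_univ, Fintype.card_fin, nsmul_eq_mul] at h4
      have h5 : ((|w| : ℤ) : ℝ) ≤ ((d : ℝ) + 1) * ((X : ℝ) ^ E * ((|x| : ℤ) : ℝ) ^ d) := by
        exact_mod_cast h4
      refine h5.trans ?_
      have h6 : (d : ℝ) + 1 ≤ Real.exp (d * V) := by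
        refine (Real.add_one_le_exp (d : ℝ)).trans (Real.exp_le_exp.2 ?_)
        nlinarith
      have h7 : (X : ℝ) ^ E ≤ Real.exp (E * V) := by
        rw [Real.exp_nat_mul]
        exact pow_le_pow_left₀ (by positivity) hXx _
      have h8 : ((|x| : ℤ) : ℝ) ^ d ≤ Real.exp (d * V) := by
        rw [Real.exp_nat_mul]
        exact pow_le_pow_left₀ (by positivity) hbnd _
      calc ((d : ℝ) + 1) * ((X : ℝ) ^ E * ((|x| : ℤ) : ℝ) ^ d)
          ≤ Real.exp (d * V) * (Real.exp (E * V) * Real.exp (d * V)) :=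
            mul_le_mul h6 (mul_le_mul h7 h8 (by positivity) (Real.exp_pos _).le) (by positivity)
              (Real.exp_pos _).le
        _ = Real.exp (2 * d * V + E * V) := by
            rw [← Real.exp_add, ← Real.exp_add]
            congr 1
            ring
        _ ≤ _ := Real.exp_le_exp.2 (by linarith)
    have h9 : (r : ℝ) * Real.log 2 ≤ 2 * d * V + E * V + V := by
      rw [← Real.log_pow, ← Real.exp_le_exp, Real.exp_log (by positivity)]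
      exact h2.trans (h1.trans h3)
    have hr0 : (0 : ℝ) ≤ r := Nat.cast_nonneg _
    have h10 : (r : ℝ) * (1 / 2) ≤ (r : ℝ) * Real.log 2 := mul_le_mul_of_nonneg_left hlog2 hr0
    linarith
  refine ⟨I, ?_, hmem, fun i => (h.coeff i).trans hZX, hnv, h.val, ⟨η, b, fun j =>
    if b j = 1 then 0 else e j, hη, fun j => ⟨(hb j).1, (hb j).2.trans hXZ⟩, fun j => ?_, ?_⟩,
    ⟨s, z, r, hs0, hs.trans hZX, hz2, hr, hrb, hw⟩, fun i => ?_⟩
  · obtain ⟨i, j, hij, hi, hj⟩ := h.two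
    exact ⟨i, (hmem i).2 hi, j, (hmem j).2 hj, hij⟩
  · show ((d * (if b j = 1 then 0 else e j) : ℕ) : ℝ) ≤ (Z : ℝ) ^ δ'
    split_ifs with h1
    · rw [mul_zero, Nat.cast_zero]
      positivity
    · have hb2 : 2 ≤ b j := by
        have := (hb j).1
        omega
      have h2 : (2 : ℝ) ^ e j ≤ ((|x| : ℤ) : ℝ) := by
        have h3 : ((b j : ℤ)) ^ e j ∣ x := by
          rw [hx]
          exact Dvd.dvd.mul_left (Finset.dvd_prod_of_mem (fun j => (b j : ℤ) ^ e j)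
            (Finset.mem_univ j)) _
        have h4 := Int.le_of_dvd (abs_pos.2 hxne) ((dvd_abs _ _).2 h3)
        have h5 : ((2 : ℤ)) ^ e j ≤ ((b j : ℤ)) ^ e j :=
          pow_le_pow_left₀ (by norm_num) (by exact_mod_cast hb2) _
        exact_mod_cast h5.trans h4
      have h6 : (e j : ℝ) * Real.log 2 ≤ V := by
        rw [← Real.log_pow, ← Real.exp_le_exp, Real.exp_log (by positivity)]
        exact h2.trans hbnd
      have he0 : (0 : ℝ) ≤ e j := Nat.cast_nonneg _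
      have h7 : (e j : ℝ) * (1 / 2) ≤ (e j : ℝ) * Real.log 2 := mul_le_mul_of_nonneg_left hlog2 he0
      have h8 : (e j : ℝ) ≤ 2 * V := by linarith
      push_cast
      have h9 : (d : ℝ) * e j ≤ d * (2 * V) := mul_le_mul_of_nonneg_left h8 hd0
      linarith
  · show x = η * ∏ j, (b j : ℤ) ^ (if b j = 1 then 0 else e j)
    rw [hx]
    congr 1
    refine Finset.prod_congr rfl fun j _ => ?_
    split_ifs with h1
    · rw [h1, Nat.cast_one, one_pow, one_pow]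
    · rfl
  · refine (hxb i).trans (Real.exp_le_exp.2 (le_trans ?_ hbig))
    have h1 : ((i : ℕ) : ℝ) ≤ d := by exact_mod_cast Nat.lt_succ_iff.1 i.2
    have h2 : ((i : ℕ) : ℝ) * V ≤ d * V := mul_le_mul_of_nonneg_right h1 (by linarith)
    linarith

/-- two points of a class with the same power are equivalent -/
theorem eqv {d N R Z C : ℕ} {δ : ℝ} {I : Finset (Fin (d + 1))}
    {t t' : (Fin (d + 1) → ℤ) × ℤ × ℤ} {x₀ : ℤ} (ht : Pt d N R δ Z I t) (ht' : Pt d N R δ Z I t')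
    (hZ : 2 ≤ Z) {r₁ r₂ r₁' r₂' s s' W : ℤ} (h1 : r₁ ≠ 0) (h2 : r₂ ≠ 0) (h1' : r₁' ≠ 0)
    (h2' : r₂' ≠ 0) (hr₁ : |r₁| ≤ (Z : ℤ) ^ C) (hr₂ : |r₂| ≤ (Z : ℤ) ^ C)
    (hr₁' : |r₁'| ≤ (Z : ℤ) ^ C) (hr₂' : |r₂'| ≤ (Z : ℤ) ^ C) (hs : |s| ≤ (Z : ℤ))
    (hs' : |s'| ≤ (Z : ℤ)) (hs0 : s ≠ 0) (hs0' : s' ≠ 0) (hx : t.2.1 * r₂ = x₀ * r₁)
    (hx' : t'.2.1 * r₂' = x₀ * r₁') (hw : t.2.2 = s * W) (hw' : t'.2.2 = s' * W)
    (hT : (Z : ℤ) ^ (2 * C * d + 3) < |t'.2.1|) :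
    ∃ ρ κ : ℚ, ρ ≠ 0 ∧ κ ≠ 0 ∧ Scales ρ κ t.1 t.2.1 t.2.2 t'.1 t'.2.1 t'.2.2 := by
  have hZ1 : (1 : ℤ) ≤ (Z : ℤ) := by exact_mod_cast (by omega : 1 ≤ Z)
  have hZ2 : (2 : ℤ) ≤ (Z : ℤ) := by exact_mod_cast hZ
  obtain ⟨A, hA⟩ : ∃ A, A = r₁ * r₂' := ⟨_, rfl⟩
  obtain ⟨B, hB⟩ : ∃ B, B = r₂ * r₁' := ⟨_, rfl⟩
  have hA0 : A ≠ 0 := by rw [hA]; exact mul_ne_zero h1 h2'
  have hB0 : B ≠ 0 := by rw [hB]; exact mul_ne_zero h2 h1'
  have hxx : t.2.1 * B = t'.2.1 * A := by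
    rw [hA, hB]
    linear_combination r₁' * hx - r₁ * hx'
  have hAb : |A| ≤ (Z : ℤ) ^ (2 * C) := by
    rw [hA, abs_mul, two_mul, pow_add]
    exact mul_le_mul hr₁ hr₂' (abs_nonneg _) (by positivity)
  have hBb : |B| ≤ (Z : ℤ) ^ (2 * C) := by
    rw [hB, abs_mul, two_mul, pow_add]
    exact mul_le_mul hr₂ hr₁' (abs_nonneg _) (by positivity)
  have hAB : ∀ i : Fin (d + 1), |A| ^ (i : ℕ) * |B| ^ (d - i) ≤ (Z : ℤ) ^ (2 * C * d) := by
    intro i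
    have hi : (i : ℕ) + (d - i) = d := by
      have := i.2
      omega
    calc |A| ^ (i : ℕ) * |B| ^ (d - i) ≤ ((Z : ℤ) ^ (2 * C)) ^ (i : ℕ) *
          ((Z : ℤ) ^ (2 * C)) ^ (d - i) :=
          mul_le_mul (pow_le_pow_left₀ (abs_nonneg _) hAb _) (pow_le_pow_left₀ (abs_nonneg _) hBb _)
            (by positivity) (by positivity)
      _ = (Z : ℤ) ^ (2 * C * d) := by rw [← pow_add, hi, ← pow_mul]
  have hBd : |B| ^ d ≤ (Z : ℤ) ^ (2 * C * d) := by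
    rw [pow_mul]
    exact pow_le_pow_left₀ (abs_nonneg _) hBb _
  have key := digits (d + 1) (fun i => s' * t.1 i * (A ^ (i : ℕ) * B ^ (d - (i : ℕ))) -
    s * t'.1 i * B ^ d) t'.2.1 (fun i => by
      have e1 : |s' * t.1 i * (A ^ (i : ℕ) * B ^ (d - (i : ℕ)))| ≤ (Z : ℤ) * Z *
          (Z : ℤ) ^ (2 * C * d) := by
        rw [abs_mul, abs_mul, abs_mul, abs_pow, abs_pow]
        exact mul_le_mul (mul_le_mul hs' (ht.c1 i) (abs_nonneg _) (by positivity)) (hAB i)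
          (by positivity) (by positivity)
      have e2 : |s * t'.1 i * B ^ d| ≤ (Z : ℤ) * Z * (Z : ℤ) ^ (2 * C * d) := by
        rw [abs_mul, abs_mul, abs_pow]
        exact mul_le_mul (mul_le_mul hs (ht'.c1 i) (abs_nonneg _) (by positivity)) hBd
          (by positivity) (by positivity)
      refine lt_of_le_of_lt ((abs_sub _ _).trans (add_le_add e1 e2)) (lt_of_le_of_lt ?_ hT)
      have e3 : (Z : ℤ) ^ (2 * C * d + 3) = Z * ((Z : ℤ) * Z * (Z : ℤ) ^ (2 * C * d)) := by ring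
      rw [e3]
      have e4 : 0 ≤ (Z : ℤ) * Z * (Z : ℤ) ^ (2 * C * d) := by positivity
      nlinarith) (by
      have e1 : ∀ i : Fin (d + 1), (s' * t.1 i * (A ^ (i : ℕ) * B ^ (d - (i : ℕ))) -
          s * t'.1 i * B ^ d) * t'.2.1 ^ (i : ℕ) = (s' * B ^ d) * (t.1 i * t.2.1 ^ (i : ℕ)) -
          (s * B ^ d) * (t'.1 i * t'.2.1 ^ (i : ℕ)) := by
        intro i
        have hi : (i : ℕ) + (d - i) = d := by
          have := i.2
          omega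
        have e2 : A ^ (i : ℕ) * t'.2.1 ^ (i : ℕ) = t.2.1 ^ (i : ℕ) * B ^ (i : ℕ) := by
          rw [← mul_pow, ← mul_pow, hxx, mul_comm]
        have e3 : B ^ (i : ℕ) * B ^ (d - (i : ℕ)) = B ^ d := by rw [← pow_add, hi]
        calc (s' * t.1 i * (A ^ (i : ℕ) * B ^ (d - (i : ℕ))) - s * t'.1 i * B ^ d) *
              t'.2.1 ^ (i : ℕ) = s' * t.1 i * ((A ^ (i : ℕ) * t'.2.1 ^ (i : ℕ)) *
              B ^ (d - (i : ℕ))) - (s * B ^ d) * (t'.1 i * t'.2.1 ^ (i : ℕ)) := by ring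
          _ = s' * t.1 i * (t.2.1 ^ (i : ℕ) * (B ^ (i : ℕ) * B ^ (d - (i : ℕ)))) -
              (s * B ^ d) * (t'.1 i * t'.2.1 ^ (i : ℕ)) := by rw [e2]; ring
          _ = _ := by rw [e3]; ring
      rw [Finset.sum_congr rfl fun i _ => e1 i, Finset.sum_sub_distrib, ← Finset.mul_sum,
        ← Finset.mul_sum, ← ht.val, ← ht'.val, hw, hw']
      ring)
  have hBq : (B : ℚ) ≠ 0 := by exact_mod_cast hB0
  have hAq : (A : ℚ) ≠ 0 := by exact_mod_cast hA0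
  have hsq : (s : ℚ) ≠ 0 := by exact_mod_cast hs0
  have hsq' : (s' : ℚ) ≠ 0 := by exact_mod_cast hs0'
  refine ⟨(A : ℚ) / B, (s : ℚ) / s', div_ne_zero hAq hBq, div_ne_zero hsq hsq', ?_, ?_,
    fun i => ?_⟩
  · have : (t.2.1 : ℚ) * B = t'.2.1 * A := by exact_mod_cast hxx
    field_simp
    linear_combination this
  · rw [hw, hw']
    push_cast
    field_simp
  · have hi : (i : ℕ) + (d - i) = d := by
      have := i.2
      omega
    have k1 := key i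
    have k2 : (s' : ℚ) * t.1 i * ((A : ℚ) ^ (i : ℕ) * (B : ℚ) ^ (d - (i : ℕ))) =
        s * t'.1 i * (B : ℚ) ^ d := by
      have : s' * t.1 i * (A ^ (i : ℕ) * B ^ (d - (i : ℕ))) = s * t'.1 i * B ^ d := by
        linarith
      exact_mod_cast this
    have k3 : (B : ℚ) ^ d = (B : ℚ) ^ (i : ℕ) * (B : ℚ) ^ (d - (i : ℕ)) := by
      rw [← pow_add, hi]
    rw [k3] at k2
    have hBn : (B : ℚ) ^ (d - (i : ℕ)) ≠ 0 := pow_ne_zero _ hBq
    have hBi : (B : ℚ) ^ (i : ℕ) ≠ 0 := pow_ne_zero _ hBq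
    rw [div_pow, mul_div_assoc', div_mul_eq_mul_div, div_eq_div_iff hBi hsq']
    apply mul_right_cancel₀ hBn
    linear_combination k2

/-- few powers in one class -/
theorem few_w {d N R Z C R₂ Y : ℕ} {δ δ₂ ε₂ : ℝ} {I : Finset (Fin (d + 1))}
    (H : ∀ Y : ℕ, 1 ≤ Y → ∀ (D : ℕ) (F : MvPolynomial (Fin (d + 1)) ℤ), 1 ≤ D →
      (D : ℝ) ≤ (Y : ℝ) ^ δ₂ → F.totalDegree ≤ D →
      (∀ m, ((|F.coeff m| : ℤ) : ℝ) ≤ Real.exp ((Y : ℝ) ^ δ₂)) →
      ∀ T : Finset ℤ, (∀ w ∈ T, ∃ (x : Fin (d + 1) → ℤ) (s z : ℤ) (r : ℕ),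
        (∀ j, |x j| ≤ (Y : ℤ)) ∧ s ≠ 0 ∧ |s| ≤ (Y : ℤ) ^ 1 ∧ 2 ≤ |z| ∧ R₂ * D ≤ r ∧ w = z ^ r ∧
        MvPolynomial.eval x F = s * w) → (T.card : ℝ) ≤ (Y : ℝ) ^ ε₂)
    (hZ : 2 ≤ Z) (hY : Y = Z ^ (C * d + 1)) (hδ₂ : 0 < δ₂) (hδ : δ ≤ δ₂)
    (t₀ : (Fin (d + 1) → ℤ) × ℤ × ℤ) (ht₀ : Pt d N R δ Z I t₀)
    (T : Finset ((Fin (d + 1) → ℤ) × ℤ × ℤ)) (hT : ∀ t ∈ T, Pt d N R δ Z I t)
    (r₁ r₂ s z : (Fin (d + 1) → ℤ) × ℤ × ℤ → ℤ) (r : (Fin (d + 1) → ℤ) × ℤ × ℤ → ℕ)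
    (hr : ∀ t ∈ T, r₁ t ≠ 0 ∧ r₂ t ≠ 0 ∧ |r₁ t| ≤ (Z : ℤ) ^ C ∧ |r₂ t| ≤ (Z : ℤ) ^ C ∧
      t.2.1 * r₂ t = t₀.2.1 * r₁ t)
    (hs : ∀ t ∈ T, s t ≠ 0 ∧ |s t| ≤ (Z : ℤ) ∧ 2 ≤ |z t| ∧ R₂ ≤ r t ∧ t.2.2 = s t * z t ^ r t) :
    ((T.image fun t => z t ^ r t).card : ℝ) ≤ (Y : ℝ) ^ ε₂ := by
  classical
  have hZ1 : 1 ≤ Z := by omega
  have hZ1' : (1 : ℤ) ≤ (Z : ℤ) := by exact_mod_cast hZ1
  have hY1 : 1 ≤ Y := by rw [hY]; exact Nat.one_le_pow _ _ hZ1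
  have hZY : Z ≤ Y := by rw [hY]; exact Nat.le_self_pow (by omega) _
  have hle : (Z : ℝ) ^ δ ≤ (Y : ℝ) ^ δ₂ :=
    (Real.rpow_le_rpow_of_exponent_le (by exact_mod_cast hZ1) hδ).trans
      (Real.rpow_le_rpow (by positivity) (by exact_mod_cast hZY) hδ₂.le)
  have hpd : ∀ (a b : ℤ) (i : Fin (d + 1)), |a| ≤ (Z : ℤ) ^ C → |b| ≤ (Z : ℤ) ^ C →
      |a| ^ (i : ℕ) * |b| ^ (d - i) ≤ (Z : ℤ) ^ (C * d) := by
    intro a b i ha hb
    have hi : (i : ℕ) + (d - i) = d := by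
      have := i.2
      omega
    calc |a| ^ (i : ℕ) * |b| ^ (d - i) ≤ ((Z : ℤ) ^ C) ^ (i : ℕ) * ((Z : ℤ) ^ C) ^ (d - i) :=
          mul_le_mul (pow_le_pow_left₀ (abs_nonneg _) ha _) (pow_le_pow_left₀ (abs_nonneg _) hb _)
            (by positivity) (by positivity)
      _ = (Z : ℤ) ^ (C * d) := by rw [← pow_add, hi, ← pow_mul]
  refine H Y hY1 1 (∑ i : Fin (d + 1), MvPolynomial.C (t₀.2.1 ^ (i : ℕ)) * MvPolynomial.X i) le_rfl
    ?_ ?_ ?_ _ fun w hw => ?_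
  · rw [Nat.cast_one]
    exact Real.one_le_rpow (by exact_mod_cast hY1) hδ₂.le
  · refine MvPolynomial.totalDegree_finsetSum_le fun i _ => ?_
    refine (MvPolynomial.totalDegree_mul _ _).trans ?_
    rw [MvPolynomial.totalDegree_C, zero_add, MvPolynomial.totalDegree_X]
  · intro μ
    rw [MvPolynomial.coeff_sum]
    have h1 : ∀ i : Fin (d + 1), MvPolynomial.coeff μ
        (MvPolynomial.C (t₀.2.1 ^ (i : ℕ)) * MvPolynomial.X i) =
        if Finsupp.single i 1 = μ then t₀.2.1 ^ (i : ℕ) else 0 := by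
      intro i
      rw [MvPolynomial.coeff_C_mul, MvPolynomial.coeff_X]
      split_ifs <;> simp
    by_cases h3 : ∃ i : Fin (d + 1), Finsupp.single i 1 = μ
    · obtain ⟨i, hi⟩ := h3
      rw [Finset.sum_eq_single i]
      · rw [h1, if_pos hi]
        exact (ht₀.xb i).trans (Real.exp_le_exp.2 hle)
      · intro j _ hj
        rw [h1, if_neg]
        intro h4
        rw [← hi] at h4
        exact hj (Finsupp.single_left_injective (by norm_num) h4)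
      · intro h4
        exact absurd (Finset.mem_univ i) h4
    · rw [Finset.sum_eq_zero, abs_zero, Int.cast_zero]
      · positivity
      · intro i _
        rw [h1, if_neg fun h4 => h3 ⟨i, h4⟩]
  · obtain ⟨t, ht, rfl⟩ := Finset.mem_image.1 hw
    obtain ⟨a1, a2, a3, a4, a5⟩ := hr t ht
    obtain ⟨b1, b2, b3, b4, b5⟩ := hs t ht
    refine ⟨fun i => t.1 i * (r₁ t ^ (i : ℕ) * r₂ t ^ (d - (i : ℕ))), r₂ t ^ d * s t, z t, r t,
      fun i => ?_, mul_ne_zero (pow_ne_zero _ a2) b1, ?_, b3, by rw [mul_one]; exact b4, rfl, ?_⟩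
    · rw [abs_mul, abs_mul, abs_pow, abs_pow, hY]
      push_cast
      rw [pow_succ, mul_comm ((Z : ℤ) ^ (C * d))]
      exact mul_le_mul ((hT t ht).c1 i) (hpd _ _ i a3 a4) (by positivity) (by positivity)
    · rw [pow_one, abs_mul, abs_pow, hY]
      push_cast
      rw [pow_succ, pow_mul]
      exact mul_le_mul (pow_le_pow_left₀ (abs_nonneg _) a4 _) b2 (abs_nonneg _) (by positivity)
    · rw [map_sum]
      have h1 : ∀ i : Fin (d + 1), MvPolynomial.eval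
          (fun i : Fin (d + 1) => t.1 i * (r₁ t ^ (i : ℕ) * r₂ t ^ (d - (i : ℕ))))
          (MvPolynomial.C (t₀.2.1 ^ (i : ℕ)) * MvPolynomial.X i) =
          r₂ t ^ d * (t.1 i * t.2.1 ^ (i : ℕ)) := by
        intro i
        have hi : (i : ℕ) + (d - i) = d := by
          have := i.2
          omega
        rw [map_mul, MvPolynomial.eval_C, MvPolynomial.eval_X]
        have e1 : t₀.2.1 ^ (i : ℕ) * r₁ t ^ (i : ℕ) = t.2.1 ^ (i : ℕ) * r₂ t ^ (i : ℕ) := by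
          rw [← mul_pow, ← mul_pow, a5]
        have e2 : r₂ t ^ (i : ℕ) * r₂ t ^ (d - (i : ℕ)) = r₂ t ^ d := by rw [← pow_add, hi]
        calc t₀.2.1 ^ (i : ℕ) * (t.1 i * (r₁ t ^ (i : ℕ) * r₂ t ^ (d - (i : ℕ)))) =
            t.1 i * ((t₀.2.1 ^ (i : ℕ) * r₁ t ^ (i : ℕ)) * r₂ t ^ (d - (i : ℕ))) := by ring
          _ = t.1 i * (t.2.1 ^ (i : ℕ) * (r₂ t ^ (i : ℕ) * r₂ t ^ (d - (i : ℕ)))) := by
            rw [e1]; ring
          _ = _ := by rw [e2]; ring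
      rw [Finset.sum_congr rfl fun i _ => h1 i, ← Finset.mul_sum, ← (hT t ht).val, b5]
      ring

/-- **Few large integral points.** -/
theorem result : ∀ (d N E : ℕ) (ε : ℝ), 0 < ε → ∃ (K R : ℕ) (δ : ℝ), 0 < δ ∧ ∀ X : ℕ, 2 ≤ X →
    ∃ S : Finset ((Fin (d + 1) → ℤ) × ℤ × ℤ), (S.card : ℝ) ≤ (X : ℝ) ^ ε ∧
      (∀ t ∈ S, LargePoint d N E K R δ X t.1 t.2.1 t.2.2) ∧
      ∀ (c : Fin (d + 1) → ℤ) (x w : ℤ), LargePoint d N E K R δ X c x w →
        ∃ t ∈ S, ∃ ρ κ : ℚ, ρ ≠ 0 ∧ κ ≠ 0 ∧ Scales ρ κ c x w t.1 t.2.1 t.2.2 := by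
  classical
  intro d N E ε hε
  obtain ⟨ε₁, hε₁⟩ : ∃ ε₁ : ℝ, ε₁ = ε / (4 * (E + 1)) := ⟨_, rfl⟩
  have hε₁0 : 0 < ε₁ := by rw [hε₁]; positivity
  choose R1 C1 δ1 hδ1 H1 using fun I : Finset (Fin (d + 1)) => cls d N I ε₁ hε₁0
  obtain ⟨Rm, hRm⟩ : ∃ Rm : ℕ, ∀ I, R1 I ≤ Rm :=
    ⟨Finset.univ.sup R1, fun I => Finset.le_sup (Finset.mem_univ I)⟩
  obtain ⟨C, hC⟩ : ∃ C : ℕ, ∀ I, C1 I ≤ C :=
    ⟨Finset.univ.sup C1, fun I => Finset.le_sup (Finset.mem_univ I)⟩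
  obtain ⟨δm, hδm, hδm'⟩ : ∃ δm : ℝ, 0 < δm ∧ ∀ I, δm ≤ δ1 I :=
    ⟨Finset.univ.inf' Finset.univ_nonempty δ1, (Finset.lt_inf'_iff _).2 fun I _ => hδ1 I,
      fun I => Finset.inf'_le _ (Finset.mem_univ I)⟩
  obtain ⟨ε₂, hε₂⟩ : ∃ ε₂ : ℝ, ε₂ = ε / (4 * (E + 1) * (C * d + 1)) := ⟨_, rfl⟩
  have hε₂0 : 0 < ε₂ := by rw [hε₂]; positivity
  obtain ⟨R₂, δ₂, hδ₂, H₂⟩ := pv (d + 1) 1 ε₂ hε₂0
  obtain ⟨δ', hδ'⟩ : ∃ δ', δ' = min δm δ₂ := ⟨_, rfl⟩
  have hδ'0 : 0 < δ' := by rw [hδ']; exact lt_min hδm hδ₂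
  have hδ'm : δ' ≤ δm := by rw [hδ']; exact min_le_left _ _
  have hδ'2 : δ' ≤ δ₂ := by rw [hδ']; exact min_le_right _ _
  obtain ⟨δ, hδ⟩ : ∃ δ, δ = δ' / 2 := ⟨_, rfl⟩
  have hδ0 : 0 < δ := by rw [hδ]; positivity
  obtain ⟨X₁, hX₁⟩ : ∃ X₁ : ℕ, ∀ X : ℕ, X₁ ≤ X → ((4 * d + 2 * E + 4 : ℕ) : ℝ) ≤ (X : ℝ) ^ δ ∧
      ((2 ^ (d + 1) : ℕ) : ℝ) ≤ (X : ℝ) ^ (ε / 2) := by
    have h1 := ((tendsto_rpow_atTop hδ0).comp
      (tendsto_natCast_atTop_atTop (R := ℝ))).eventually_ge_atTop ((4 * d + 2 * E + 4 : ℕ) : ℝ)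
    have h2 := ((tendsto_rpow_atTop (show (0 : ℝ) < ε / 2 by positivity)).comp
      (tendsto_natCast_atTop_atTop (R := ℝ))).eventually_ge_atTop ((2 ^ (d + 1) : ℕ) : ℝ)
    obtain ⟨X₁, h3⟩ := Filter.eventually_atTop.1 (h1.and h2)
    exact ⟨X₁, h3⟩
  obtain ⟨K₀, hK₀⟩ := exists_nat_ge (Real.exp ((X₁ : ℝ) ^ δ))
  obtain ⟨K, hK⟩ : ∃ K, K = K₀ + (E + 1) * (2 * C * d + 3) := ⟨_, rfl⟩
  have hKE : E + 1 ≤ K := by
    rw [hK]
    have : (E + 1) * 1 ≤ (E + 1) * (2 * C * d + 3) := Nat.mul_le_mul_left _ (by omega)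
    omega
  refine ⟨K, max Rm R₂, δ, hδ0, fun X hX => ?_⟩
  obtain ⟨R, hR⟩ : ∃ R, R = max Rm R₂ := ⟨_, rfl⟩
  rw [← hR]
  have hX1 : (1 : ℝ) ≤ (X : ℝ) := by exact_mod_cast (by omega : 1 ≤ X)
  rcases lt_or_ge X X₁ with hsm | hlg
  · refine ⟨∅, ?_, fun t ht => absurd ht (Finset.notMem_empty t), fun c x w h => ?_⟩
    · rw [Finset.card_empty, Nat.cast_zero]
      positivity
    · exfalso
      have h1 : ((X : ℝ)) ^ K < ((|x| : ℤ) : ℝ) := by exact_mod_cast h.large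
      have h2 : (2 : ℝ) ^ K ≤ (X : ℝ) ^ K := pow_le_pow_left₀ (by norm_num) (by exact_mod_cast hX) _
      have h3 : Real.exp ((X : ℝ) ^ δ) ≤ Real.exp ((X₁ : ℝ) ^ δ) :=
        Real.exp_le_exp.2 (Real.rpow_le_rpow (by positivity) (by exact_mod_cast hsm.le) hδ0.le)
      have h4 : (K₀ : ℝ) ≤ 2 ^ K := by
        have h5 : K₀ ≤ 2 ^ K := (by rw [hK]; omega : K₀ ≤ K).trans Nat.lt_two_pow_self.le
        exact_mod_cast h5
      have := h.bound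
      linarith
  obtain ⟨hbig1, hbig2⟩ := hX₁ X hlg
  obtain ⟨Z, hZ⟩ : ∃ Z : ℕ, Z = X ^ (E + 1) := ⟨_, rfl⟩
  have hXZ : X ≤ Z := by
    rw [hZ]
    exact Nat.le_self_pow (by omega) _
  have hZ2 : 2 ≤ Z := hX.trans hXZ
  have hZ1 : 1 ≤ Z := by omega
  have hZR : (1 : ℝ) ≤ (Z : ℝ) := by exact_mod_cast hZ1
  have hbig : ((4 * d + 2 * E + 4 : ℕ) : ℝ) * (X : ℝ) ^ δ ≤ (Z : ℝ) ^ δ' := by
    calc ((4 * d + 2 * E + 4 : ℕ) : ℝ) * (X : ℝ) ^ δ ≤ (X : ℝ) ^ δ * (X : ℝ) ^ δ :=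
          mul_le_mul_of_nonneg_right hbig1 (by positivity)
      _ = (X : ℝ) ^ δ' := by
          rw [← Real.rpow_add (by linarith), hδ]
          congr 1
          ring
      _ ≤ (Z : ℝ) ^ δ' := Real.rpow_le_rpow (by linarith) (by exact_mod_cast hXZ) hδ'0.le
  -- the classes
  have hcl : ∀ I : Finset (Fin (d + 1)), ∃ Tc : Finset ((Fin (d + 1) → ℤ) × ℤ × ℤ),
      (Tc.card : ℝ) ≤ (Z : ℝ) ^ ε₁ ∧ ((∃ i ∈ I, ∃ j ∈ I, i < j) →
        (∀ t ∈ Tc, Pt d N R δ' Z I t) ∧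
        ∀ t, Pt d N R δ' Z I t → ∃ t₀ ∈ Tc, ∃ r₁ r₂ : ℤ, r₁ ≠ 0 ∧ r₂ ≠ 0 ∧
          |r₁| ≤ (Z : ℤ) ^ (C1 I) ∧ |r₂| ≤ (Z : ℤ) ^ (C1 I) ∧ t.2.1 * r₂ = t₀.2.1 * r₁) := by
    intro I
    by_cases hI : ∃ i ∈ I, ∃ j ∈ I, i < j
    · obtain ⟨T, h1, h2, h3⟩ := H1 I R δ' ((hRm I).trans (by rw [hR]; exact le_max_left _ _))
        (hδ'm.trans (hδm' I)) Z hZ2 hI
      exact ⟨T, h2, fun _ => ⟨h1, h3⟩⟩
    · refine ⟨∅, ?_, fun h => absurd h hI⟩
      rw [Finset.card_empty, Nat.cast_zero]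
      positivity
  choose Tc hTc1 hTc2 using hcl
  obtain ⟨Y, hY⟩ : ∃ Y : ℕ, Y = Z ^ (C * d + 1) := ⟨_, rfl⟩
  have hmain : ∀ T : Finset ((Fin (d + 1) → ℤ) × ℤ × ℤ),
      (∀ t ∈ T, t ∈ {t | LargePoint d N E K R δ X t.1 t.2.1 t.2.2}) →
      (∀ t ∈ T, ∀ t' ∈ T, t ≠ t' → ¬ ∃ ρ κ : ℚ, ρ ≠ 0 ∧ κ ≠ 0 ∧
        Scales ρ κ t.1 t.2.1 t.2.2 t'.1 t'.2.1 t'.2.2) → (T.card : ℝ) ≤ (X : ℝ) ^ ε := by
    intro T hT hsep
    have hex : ∀ t ∈ T, ∃ (I : Finset (Fin (d + 1))) (t₀ : (Fin (d + 1) → ℤ) × ℤ × ℤ)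
        (r₁ r₂ s z : ℤ) (r : ℕ), Pt d N R δ' Z I t ∧ t₀ ∈ Tc I ∧
        Pt d N R δ' Z I t₀ ∧
        (r₁ ≠ 0 ∧ r₂ ≠ 0 ∧ |r₁| ≤ (Z : ℤ) ^ C ∧ |r₂| ≤ (Z : ℤ) ^ C ∧ t.2.1 * r₂ = t₀.2.1 * r₁) ∧
        (s ≠ 0 ∧ |s| ≤ (Z : ℤ) ∧ 2 ≤ |z| ∧ R₂ ≤ r ∧ t.2.2 = s * z ^ r) := by
      intro t ht
      obtain ⟨I, hI, hpt⟩ := LargePoint.pt (hT t ht) hX hδ0 hKE hZ hbig
      obtain ⟨s, z, r, k1, k2, k3, k4, k5, k6⟩ := hpt.pow
      obtain ⟨g1, g2⟩ := hTc2 I hI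
      obtain ⟨t₀, ht₀, r₁, r₂, q1, q2, q3, q4, q5⟩ := g2 t hpt
      have hpC : (Z : ℤ) ^ (C1 I) ≤ (Z : ℤ) ^ C :=
        pow_le_pow_right₀ (by exact_mod_cast hZ1) (hC I)
      exact ⟨I, t₀, r₁, r₂, s, z, r, hpt, ht₀, g1 t₀ ht₀, ⟨q1, q2, q3.trans hpC, q4.trans hpC,
        q5⟩, ⟨k1, k2, k3, (by rw [hR]; exact le_max_right _ _ : R₂ ≤ R).trans k4, k6⟩⟩
    choose! I t₀ r₁ r₂ s z r hp1 hp2 hp3 hp4 hp5 using hex
    have hcov : T ⊆ (Finset.univ : Finset (Finset (Fin (d + 1)))).biUnion fun J =>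
        (Tc J).biUnion fun a => T.filter fun t => I t = J ∧ t₀ t = a := by
      intro t ht
      refine Finset.mem_biUnion.2 ⟨I t, Finset.mem_univ _, Finset.mem_biUnion.2 ⟨t₀ t, hp2 t ht,
        Finset.mem_filter.2 ⟨ht, rfl, rfl⟩⟩⟩
    have hfib : ∀ J a, ((T.filter fun t => I t = J ∧ t₀ t = a).card : ℝ) ≤ (Y : ℝ) ^ ε₂ := by
      intro J a
      obtain ⟨G, hG⟩ : ∃ G, G = T.filter fun t => I t = J ∧ t₀ t = a := ⟨_, rfl⟩
      rw [← hG]
      have hGm : ∀ t ∈ G, t ∈ T ∧ I t = J ∧ t₀ t = a := by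
        intro t ht
        rw [hG] at ht
        exact Finset.mem_filter.1 ht
      rcases G.eq_empty_or_nonempty with h0 | ⟨t1, ht1⟩
      · rw [h0, Finset.card_empty, Nat.cast_zero]
        positivity
      have hpa : Pt d N R δ' Z J a := by
        obtain ⟨h1, h2, h3⟩ := hGm t1 ht1
        have := hp3 t1 h1
        rwa [h2, h3] at this
      have hpt : ∀ t ∈ G, Pt d N R δ' Z J t := by
        intro t ht
        obtain ⟨h1, h2, h3⟩ := hGm t ht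
        have := hp1 t h1
        rwa [h2] at this
      have hrr : ∀ t ∈ G, r₁ t ≠ 0 ∧ r₂ t ≠ 0 ∧ |r₁ t| ≤ (Z : ℤ) ^ C ∧ |r₂ t| ≤ (Z : ℤ) ^ C ∧
          t.2.1 * r₂ t = a.2.1 * r₁ t := by
        intro t ht
        obtain ⟨h1, h2, h3⟩ := hGm t ht
        have := hp4 t h1
        rwa [h3] at this
      have hinj : Set.InjOn (fun t => z t ^ r t) (G : Set ((Fin (d + 1) → ℤ) × ℤ × ℤ)) := by
        intro t ht t' ht' heq
        have ht := Finset.mem_coe.1 ht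
        have ht' := Finset.mem_coe.1 ht'
        have heq : z t ^ r t = z t' ^ r t' := heq
        by_contra hne
        refine hsep t (hGm t ht).1 t' (hGm t' ht').1 hne ?_
        obtain ⟨a1, a2, a3, a4, a5⟩ := hrr t ht
        obtain ⟨b1, b2, b3, b4, b5⟩ := hrr t' ht'
        obtain ⟨c1, c2, c3, c4, c5⟩ := hp5 t (hGm t ht).1
        obtain ⟨d1, d2, d3, d4, d5⟩ := hp5 t' (hGm t' ht').1
        rw [← heq] at d5
        refine eqv (C := C) (hpt t ht) (hpt t' ht') hZ2 a1 a2 b1 b2 a3 a4 b3 b4 c2 d2 c1 d1 a5 b5 c5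
          d5 ?_
        refine lt_of_le_of_lt ?_ (hT t' (hGm t' ht').1).large
        rw [hZ]
        push_cast
        rw [← pow_mul]
        refine pow_le_pow_right₀ (by exact_mod_cast (by omega : 1 ≤ X)) ?_
        rw [hK]
        omega
      rw [← Finset.card_image_of_injOn hinj]
      exact few_w (C := C) H₂ hZ2 hY hδ₂ hδ'2 a hpa G hpt r₁ r₂ s z r hrr
        (fun t ht => hp5 t (hGm t ht).1)
    have hcard : (T.card : ℝ) ≤ ∑ J : Finset (Fin (d + 1)), ∑ a ∈ Tc J,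
        ((T.filter fun t => I t = J ∧ t₀ t = a).card : ℝ) := by
      have h1 := (Finset.card_le_card hcov).trans (Finset.card_biUnion_le.trans
        (Finset.sum_le_sum fun J _ => Finset.card_biUnion_le))
      exact_mod_cast h1
    have hYε : (Y : ℝ) ^ ε₂ = (X : ℝ) ^ (ε / 4) := by
      rw [hY, hZ]
      push_cast
      rw [← pow_mul, ← Real.rpow_natCast, ← Real.rpow_mul (by linarith)]
      congr 1
      rw [hε₂]
      have h1 : ((E : ℝ) + 1) ≠ 0 := by positivity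
      have h2 : ((C : ℝ) * d + 1) ≠ 0 := by positivity
      push_cast
      field_simp
    have hZε : (Z : ℝ) ^ ε₁ = (X : ℝ) ^ (ε / 4) := by
      rw [hZ]
      push_cast
      rw [← Real.rpow_natCast, ← Real.rpow_mul (by linarith)]
      congr 1
      rw [hε₁]
      have h1 : ((E : ℝ) + 1) ≠ 0 := by positivity
      push_cast
      field_simp
    have hW0 : (0 : ℝ) ≤ (X : ℝ) ^ (ε / 4) := by positivity
    calc (T.card : ℝ) ≤ ∑ J : Finset (Fin (d + 1)), ∑ a ∈ Tc J,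
          ((T.filter fun t => I t = J ∧ t₀ t = a).card : ℝ) := hcard
      _ ≤ ∑ J : Finset (Fin (d + 1)), (X : ℝ) ^ (ε / 4) * (X : ℝ) ^ (ε / 4) := by
          refine Finset.sum_le_sum fun J _ => ?_
          refine (Finset.sum_le_sum fun a _ => hfib J a).trans ?_
          rw [Finset.sum_const, nsmul_eq_mul, hYε]
          refine mul_le_mul_of_nonneg_right ?_ hW0
          rw [← hZε]
          exact hTc1 J
      _ = ((2 ^ (d + 1) : ℕ) : ℝ) * ((X : ℝ) ^ (ε / 4) * (X : ℝ) ^ (ε / 4)) := by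
          rw [Finset.sum_const, nsmul_eq_mul, Finset.card_univ, Fintype.card_finset,
            Fintype.card_fin]
      _ ≤ (X : ℝ) ^ (ε / 2) * ((X : ℝ) ^ (ε / 4) * (X : ℝ) ^ (ε / 4)) :=
          mul_le_mul_of_nonneg_right hbig2 (mul_nonneg hW0 hW0)
      _ = (X : ℝ) ^ ε := by
          rw [← Real.rpow_add (by linarith), ← Real.rpow_add (by linarith)]
          congr 1
          ring
  obtain ⟨S, h1, h2, h3⟩ := max_sep (α := (Fin (d + 1) → ℤ) × ℤ × ℤ)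
    {t | LargePoint d N E K R δ X t.1 t.2.1 t.2.2} (fun t t' => ∃ ρ κ : ℚ, ρ ≠ 0 ∧ κ ≠ 0 ∧ Scales ρ κ t.1 t.2.1 t.2.2 t'.1 t'.2.1 t'.2.2)
    (fun t => ⟨1, 1, one_ne_zero, one_ne_zero, by rw [one_mul], by rw [one_mul], fun i => by
      rw [one_pow, mul_one, one_mul]⟩)
    (fun t t' h => by
      obtain ⟨ρ, κ, hρ, hκ, e1, e2, e3⟩ := h
      refine ⟨ρ⁻¹, κ⁻¹, inv_ne_zero hρ, inv_ne_zero hκ, ?_, ?_, fun i => ?_⟩
      · rw [e1, inv_mul_cancel_left₀ hρ]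
      · rw [e2, inv_mul_cancel_left₀ hκ]
      · have h4 := e3 i
        have h5 : ρ ^ (i : ℕ) ≠ 0 := pow_ne_zero _ hρ
        rw [inv_pow]
        field_simp
        linear_combination -h4) ((X : ℝ) ^ ε) hmain
  exact ⟨S, h2, h1, fun c x w h => h3 (c, x, w) h⟩

end Pool.Agent.Results.MP_d88658_nt.GeneratedPowerPoints
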